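import Pool.Agent.E8helper69.CB.Stm

/-!
CB-NRM (helper69's project on a cubic surface): the norms.
-/

set_option autoImplicit false

namespace Pool.Agent.E8helper10.CB

open NumberField Pool.Agent.E8helper69.CB

/-! ### the equation `a² + 23 b² = 8 · 23^m · 9013^n` -/

instance : Fact (Nat.Prime 9013) := ⟨by norm_num⟩

theorem descent : ∀ (N m n : ℕ), m + n = N → ∀ a b : ℤ,
    a ^ 2 + 23 * b ^ 2 ≠ 8 * 23 ^ m * 9013 ^ n := by
  intro N
  induction N using Nat.strong_induction_on with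
  | _ N ih =>
    intro m n hmn a b h
    rcases Nat.eq_zero_or_pos m with hm | hm
    · rcases Nat.eq_zero_or_pos n with hn | hn
      · subst hm; subst hn
        simp only [pow_zero, mul_one] at h
        have hb : b = 0 := by
          by_contra hb
          have h1 : 1 ≤ b ^ 2 := by
            have := sq_nonneg b
            have : b ^ 2 ≠ 0 := pow_ne_zero 2 hb
            omega
          nlinarith [sq_nonneg a]
        rw [hb] at h
        have h2 : a ^ 2 = 8 := by linarith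
        have h3 : a ≤ 2 := by nlinarith
        have h4 : -2 ≤ a := by nlinarith
        interval_cases a <;> omega
      · have h1 : (9013 : ℤ) ∣ a ^ 2 - (-23) * b ^ 2 := by
          have e : a ^ 2 - (-23) * b ^ 2 = 8 * 23 ^ m * 9013 ^ n := by linarith
          rw [e]
          exact Dvd.dvd.mul_left (dvd_pow_self _ hn.ne') _
        have h2 : legendreSym 9013 (-23) = -1 := by norm_num
        obtain ⟨⟨a1, ha1⟩, ⟨b1, hb1⟩⟩ :=
          legendreSym.prime_dvd_of_eq_neg_one h2 (x := a) (y := b) (by exact_mod_cast h1)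
        push_cast at ha1 hb1
        have h3 : 9013 ^ 2 * (a1 ^ 2 + 23 * b1 ^ 2) = 8 * 23 ^ m * 9013 ^ n := by
          rw [← h, ha1, hb1]; ring
        rcases Nat.lt_or_ge n 2 with h4 | h4
        · have h5 : n = 1 := by omega
          rw [h5, hm] at h3
          norm_num at h3
          omega
        · obtain ⟨n', rfl⟩ : ∃ n', n = n' + 2 := ⟨n - 2, by omega⟩
          refine ih (m + n') (by omega) m n' rfl a1 b1 ?_
          have h5 : (9013 : ℤ) ^ 2 * (a1 ^ 2 + 23 * b1 ^ 2) = 9013 ^ 2 * (8 * 23 ^ m * 9013 ^ n') := by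
            rw [h3]; ring
          exact mul_left_cancel₀ (by norm_num) h5
    · obtain ⟨m', rfl⟩ : ∃ m', m = m' + 1 := ⟨m - 1, by omega⟩
      have h1 : (23 : ℤ) ∣ a := by
        have h2 : (23 : ℤ) ∣ a ^ 2 := by
          have e : a ^ 2 = 23 * (8 * 23 ^ m' * 9013 ^ n - b ^ 2) := by
            have : (8 : ℤ) * 23 ^ (m' + 1) * 9013 ^ n = 23 * (8 * 23 ^ m' * 9013 ^ n) := by ring
            linarith
          exact ⟨_, e⟩
        exact (by norm_num : Prime (23 : ℤ)).dvd_of_dvd_pow h2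
      obtain ⟨a1, rfl⟩ := h1
      refine ih (m' + n) (by omega) m' n rfl b a1 ?_
      have h5 : (23 : ℤ) * (b ^ 2 + 23 * a1 ^ 2) = 23 * (8 * 23 ^ m' * 9013 ^ n) := by
        have : (8 : ℤ) * 23 ^ (m' + 1) * 9013 ^ n = 23 * (8 * 23 ^ m' * 9013 ^ n) := by ring
        linarith
      exact mul_left_cancel₀ (by norm_num) h5

/-! ### the field -/

section

variable {H : Type} [Field H] [NumberField H] (D : Fld H)

/-- the spanning hypothesis -/
def Span : Prop := ∀ u : H, ∃ c : Fin 6 → ℚ, u = (c 0 : H) + c 1 * D.p + c 2 * D.p ^ 2 +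
    c 3 * D.q + c 4 * (D.p * D.q) + c 5 * (D.p ^ 2 * D.q)

variable {D}

theorem hom_ext (hs : Span D) (f g : H →+* H) (hp : f D.p = g D.p) (hq : f D.q = g D.q) (u : H) :
    f u = g u := by
  obtain ⟨c, hc⟩ := hs u
  rw [hc]
  simp only [map_add, map_mul, map_pow, map_ratCast, hp, hq]

theorem sss (hs : Span D) (u : H) : D.σ (D.σ (D.σ u)) = u := by
  have := hom_ext hs ((D.σ : H →+* H).comp ((D.σ : H →+* H).comp (D.σ : H →+* H)))
    (RingHom.id H) (by simp [D.σp, D.σq] <;> ring) (by simp [D.σp, D.σq] <;> ring) u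
  simpa using this

theorem tt (hs : Span D) (u : H) : D.τ (D.τ u) = u := by
  have := hom_ext hs ((D.τ : H →+* H).comp (D.τ : H →+* H))
    (RingHom.id H) (by simp [D.τp, D.τq]) (by simp [D.τp, D.τq]) u
  simpa using this

theorem st (hs : Span D) (u : H) : D.σ (D.τ u) = D.τ (D.σ (D.σ u)) := by
  have := hom_ext hs ((D.σ : H →+* H).comp (D.τ : H →+* H))
    ((D.τ : H →+* H).comp ((D.σ : H →+* H).comp (D.σ : H →+* H)))
    (by simp [D.σp, D.σq, D.τp, D.τq] <;> ring) (by simp [D.σp, D.σq, D.τp, D.τq] <;> ring) u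
  simpa using this

theorem hpq (D : Fld H) : D.p * D.q * (D.p + D.q) = -1 := by
  linear_combination D.p * D.hq - D.hp

theorem intcast_of_rat {u : H} (hi : IsIntegral ℤ u) (x : ℚ) (hx : u = (x : H)) :
    ∃ z : ℤ, u = (z : H) := by
  have h1 : u = algebraMap ℚ H x := by rw [hx]; simp
  rw [h1] at hi
  have h2 : IsIntegral ℤ x :=
    (isIntegral_algebraMap_iff (algebraMap ℚ H).injective).1 hi
  obtain ⟨z, hz⟩ := IsIntegrallyClosed.isIntegral_iff.1 h2
  refine ⟨z, ?_⟩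
  rw [hx, ← hz]
  simp

/-- fixed integral elements are integers -/
theorem fix (hs : Span D) {u : H} (hσ : D.σ u = u) (hτ : D.τ u = u) (hi : IsIntegral ℤ u) :
    ∃ z : ℤ, u = (z : H) := by
  obtain ⟨c, hc⟩ := hs u
  have E1 : u = (c 0 : H) + c 1 * D.q + c 2 * D.q ^ 2 + c 3 * (-D.p - D.q) +
      c 4 * (D.q * (-D.p - D.q)) + c 5 * (D.q ^ 2 * (-D.p - D.q)) := by
    have := congrArg D.σ hc
    simp only [map_add, map_mul, map_pow, map_ratCast, D.σp, D.σq, hσ] at this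
    exact this
  have E2 : u = (c 0 : H) + c 1 * (-D.p - D.q) + c 2 * (-D.p - D.q) ^ 2 + c 3 * D.p +
      c 4 * ((-D.p - D.q) * D.p) + c 5 * ((-D.p - D.q) ^ 2 * D.p) := by
    have := congrArg D.σ E1
    simp only [map_add, map_mul, map_pow, map_ratCast, map_sub, map_neg, D.σp, D.σq, hσ] at this
    rw [this]; ring
  have E3 : u = (c 0 : H) + c 1 * D.q + c 2 * D.q ^ 2 + c 3 * D.p +
      c 4 * (D.q * D.p) + c 5 * (D.q ^ 2 * D.p) := by
    have := congrArg D.τ hc
    simp only [map_add, map_mul, map_pow, map_ratCast, D.τp, D.τq, hτ] at this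
    exact this
  have E4 : u = (c 0 : H) + c 1 * D.p + c 2 * D.p ^ 2 + c 3 * (-D.p - D.q) +
      c 4 * (D.p * (-D.p - D.q)) + c 5 * (D.p ^ 2 * (-D.p - D.q)) := by
    have := congrArg D.τ E1
    simp only [map_add, map_mul, map_pow, map_ratCast, map_sub, map_neg, D.τp, D.τq, hτ] at this
    rw [this]; ring
  have E5 : u = (c 0 : H) + c 1 * (-D.p - D.q) + c 2 * (-D.p - D.q) ^ 2 + c 3 * D.q +
      c 4 * ((-D.p - D.q) * D.q) + c 5 * ((-D.p - D.q) ^ 2 * D.q) := by
    have := congrArg D.τ E2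
    simp only [map_add, map_mul, map_pow, map_ratCast, map_sub, map_neg, D.τp, D.τq, hτ] at this
    rw [this]; ring
  have h6 : 6 * u = 6 * (c 0 : H) + 4 * c 2 - 2 * c 4 - 3 * c 5 := by
    linear_combination hc + E1 + E2 + E3 + E4 + E5 + 4 * (c 2 : H) * D.hq -
      2 * (c 4 : H) * D.hq + 3 * (c 5 : H) * hpq D
  apply intcast_of_rat hi ((6 * c 0 + 4 * c 2 - 2 * c 4 - 3 * c 5) / 6)
  have h7 : (6 : H) ≠ 0 := by norm_num
  push_cast
  rw [eq_div_iff h7, ← h6]
  ring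

/-- the norm -/
def N6 (D : Fld H) (u : H) : H :=
  u * D.σ u * D.σ (D.σ u) * D.τ u * D.τ (D.σ u) * D.τ (D.σ (D.σ u))

theorem int_σ (D : Fld H) {u : H} (h : IsIntegral ℤ u) : IsIntegral ℤ (D.σ u) :=
  map_isIntegral_int (D.σ : H →+* H) h

theorem int_τ (D : Fld H) {u : H} (h : IsIntegral ℤ u) : IsIntegral ℤ (D.τ u) :=
  map_isIntegral_int (D.τ : H →+* H) h

theorem N6_int (hs : Span D) {u : H} (h : IsIntegral ℤ u) : ∃ z : ℤ, N6 D u = (z : H) := by
  apply fix hs
  · unfold N6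
    simp only [map_mul, st hs, sss hs]
    ring
  · unfold N6
    simp only [map_mul, tt hs]
    ring
  · unfold N6
    exact ((((h.mul (int_σ D h)).mul (int_σ D (int_σ D h))).mul (int_τ D h)).mul
      (int_τ D (int_σ D h))).mul (int_τ D (int_σ D (int_σ D h)))

theorem N6_mul (D : Fld H) (u v : H) : N6 D (u * v) = N6 D u * N6 D v := by
  unfold N6
  simp only [map_mul]
  ring

theorem N6_pi (D : Fld H) : N6 D (-D.p + D.p ^ 2 - D.q) = 8 := by
  have hp := D.hp
  have hq := D.hq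
  have hq3 : D.q ^ 3 = D.q + 1 := by
    have := congrArg D.σ hp
    simpa [D.σp] using this
  unfold N6
  simp only [map_add, map_sub, map_neg, map_pow, D.σp, D.σq, D.τp, D.τq]
  set p := D.p
  set q := D.q
  have e1 : (-p + p ^ 2 - q) * (-p + p ^ 2 - (-p - q)) = 2 * (p ^ 2 - 1) := by
    linear_combination (p - 1) * hp - hq
  have e2 : (-q + q ^ 2 - (-p - q)) * (-q + q ^ 2 - p) = 2 * (q ^ 2 - 1) := by
    linear_combination (q - 1) * hq3 - hq
  have hr3 : (-p - q) ^ 3 = (-p - q) + 1 := by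
    have h1 : p * q * (p + q) = -1 := by linear_combination p * hq - hp
    linear_combination -hp - hq3 - 3 * h1
  have e3 : (-(-p - q) + (-p - q) ^ 2 - p) * (-(-p - q) + (-p - q) ^ 2 - q) =
      2 * ((-p - q) ^ 2 - 1) := by
    linear_combination (-p - q - 1) * hr3 - hq
  have h1 : p * (p ^ 2 - 1) = 1 := by linear_combination hp
  have h2 : q * (q ^ 2 - 1) = 1 := by linear_combination hq3
  have h3 : (-p - q) * ((-p - q) ^ 2 - 1) = 1 := by linear_combination hr3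
  have h4 : p * q * (-p - q) = 1 := by linear_combination hp - p * hq
  have h5 : (p ^ 2 - 1) * (q ^ 2 - 1) * ((-p - q) ^ 2 - 1) = 1 := by
    calc (p ^ 2 - 1) * (q ^ 2 - 1) * ((-p - q) ^ 2 - 1)
        = (p * q * (-p - q)) * ((p ^ 2 - 1) * (q ^ 2 - 1) * ((-p - q) ^ 2 - 1)) := by
          rw [h4, one_mul]
      _ = (p * (p ^ 2 - 1)) * (q * (q ^ 2 - 1)) * ((-p - q) * ((-p - q) ^ 2 - 1)) := by ring
      _ = 1 := by rw [h1, h2, h3]; ring
  calc _ = ((-p + p ^ 2 - q) * (-p + p ^ 2 - (-p - q))) *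
        ((-q + q ^ 2 - (-p - q)) * (-q + q ^ 2 - p)) *
        ((-(-p - q) + (-p - q) ^ 2 - p) * (-(-p - q) + (-p - q) ^ 2 - q)) := by ring
    _ = 8 * ((p ^ 2 - 1) * (q ^ 2 - 1) * ((-p - q) ^ 2 - 1)) := by rw [e1, e2, e3]; ring
    _ = 8 := by rw [h5, mul_one]

theorem int_p (D : Fld H) : IsIntegral ℤ D.p := by
  refine ⟨Polynomial.X ^ 3 - Polynomial.X - 1, ?_, ?_⟩
  · monicity!
  · simp [D.hp]

end

theorem t_NRM : S_NRM := by
  intro H _ _ D hs μ ν ρ k l hμ hν hρ hσ hμν hνρ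
  have hs' : Span D := hs
  have hp := int_p D
  have hq : IsIntegral ℤ D.q := by rw [← D.σp]; exact int_σ D hp
  set μ' := D.τ μ with hμ'
  have hiμ' : IsIntegral ℤ μ' := int_τ D hμ
  have hσ' : D.σ μ' = μ' := by rw [hμ', st hs', hσ, hσ]
  have hτ' : D.τ μ' = μ := tt hs' μ
  obtain ⟨a, ha⟩ := fix hs' (u := μ + μ') (by rw [map_add, hσ, hσ'])
    (by rw [map_add, hτ', ← hμ', add_comm]) (hμ.add hiμ')
  obtain ⟨N, hN⟩ := fix hs' (u := μ * μ') (by rw [map_mul, hσ, hσ'])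
    (by rw [map_mul, hτ', ← hμ', mul_comm]) (hμ.mul hiμ')
  -- the square root of `-23`
  set s : H := (D.p - D.q) * (D.p + 2 * D.q) * (-2 * D.p - D.q) with hsdef
  have hs1 : D.σ s = s := by
    rw [hsdef]
    simp only [map_mul, map_add, map_sub, map_neg, map_ofNat, D.σp, D.σq]
    ring
  have hs2 : D.τ s = -s := by
    rw [hsdef]
    simp only [map_mul, map_add, map_sub, map_neg, map_ofNat, D.τp, D.τq]
    ring
  have hs3 : s ^ 2 = -23 := by
    have h1 := D.hp
    have h2 := D.hq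
    have h3 := hpq D
    have e : s ^ 2 = 4 * (D.q ^ 2 + D.p * D.q + D.p ^ 2) ^ 3 - 27 * (D.p * D.q * (D.p + D.q)) ^ 2 := by
      rw [hsdef]; ring
    rw [e, h2, h3]; norm_num
  have his : IsIntegral ℤ s := by
    rw [hsdef]
    have h2 : IsIntegral ℤ (2 : H) := by
      have := isIntegral_algebraMap (R := ℤ) (A := H) (x := 2)
      simpa using this
    exact ((hp.sub hq).mul (hp.add (h2.mul hq))).mul ((h2.neg.mul hp).sub hq)
  obtain ⟨t, ht⟩ := fix hs' (u := (μ - μ') * s)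
    (by rw [map_mul, map_sub, hσ, hσ', hs1])
    (by rw [map_mul, map_sub, hτ', ← hμ', hs2]; ring) ((hμ.sub hiμ').mul his)
  have e1 : t ^ 2 = 23 * (4 * N - a ^ 2) := by
    have : ((t ^ 2 : ℤ) : H) = ((23 * (4 * N - a ^ 2) : ℤ) : H) := by
      push_cast
      rw [← ht, ← hN, ← ha]
      linear_combination (μ - μ') ^ 2 * hs3
    exact_mod_cast this
  have h23 : (23 : ℤ) ∣ t := (by norm_num : Prime (23 : ℤ)).dvd_of_dvd_pow ⟨_, e1⟩
  obtain ⟨b, rfl⟩ := h23
  have e2 : a ^ 2 + 23 * b ^ 2 = 4 * N := by nlinarith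
  -- norms
  obtain ⟨M, hM⟩ := N6_int hs' hν
  obtain ⟨M', hM'⟩ := N6_int hs' hρ
  have e3 : N ^ 3 = 8 * M := by
    have h1 : N6 D μ = (μ * μ') ^ 3 := by
      unfold N6
      rw [hσ, hσ, ← hμ']
      ring
    have h2 : N6 D μ = 8 * N6 D ν := by
      conv_lhs => rw [hμν]
      rw [N6_mul, N6_pi]
    have : ((N ^ 3 : ℤ) : H) = ((8 * M : ℤ) : H) := by
      push_cast
      rw [← hN, ← hM, ← h1, h2]
    exact_mod_cast this
  have e4 : M * M' = (23 ^ k * 9013 ^ l) ^ 6 := by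
    have h1 : N6 D (ν * ρ) = (23 ^ k * 9013 ^ l) ^ 6 := by
      rw [hνρ]
      unfold N6
      simp only [map_mul, map_pow, map_ofNat]
      ring
    rw [N6_mul, hM, hM'] at h1
    have : ((M * M' : ℤ) : H) = (((23 ^ k * 9013 ^ l) ^ 6 : ℤ) : H) := by
      push_cast
      exact h1
    exact_mod_cast this
  have hN0 : 0 < N := by
    have h1 : 0 ≤ N := by nlinarith [sq_nonneg a, sq_nonneg b]
    have h2 : N ≠ 0 := by
      rintro rfl
      have h3 : M = 0 := by
        have : (8 : ℤ) * M = 0 := by rw [← e3]; norm_num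
        omega
      rw [h3, zero_mul] at e4
      have : ((23 : ℤ) ^ k * 9013 ^ l) ^ 6 ≠ 0 := by positivity
      exact this e4.symm
    omega
  have h2N : (2 : ℤ) ∣ N := by
    apply (by norm_num : Prime (2 : ℤ)).dvd_of_dvd_pow (n := 3)
    exact ⟨4 * M, by rw [e3]; ring⟩
  obtain ⟨N', rfl⟩ := h2N
  have e5 : N' ^ 3 = M := by nlinarith
  have hN'0 : 0 < N' := by omega
  obtain ⟨n', rfl⟩ : ∃ n' : ℕ, (n' : ℤ) = N' := ⟨N'.toNat, by omega⟩
  have hdvd : n' ∣ (23 ^ k * 9013 ^ l) ^ 6 := by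
    have h1 : (n' : ℤ) ∣ (23 ^ k * 9013 ^ l) ^ 6 := by
      rw [← e4, ← e5]
      exact ⟨n' ^ 2 * M', by ring⟩
    exact_mod_cast h1
  rw [mul_pow, ← pow_mul, ← pow_mul, Nat.dvd_mul] at hdvd
  obtain ⟨x, y, hx, hy, hxy⟩ := hdvd
  obtain ⟨i, _, hi⟩ := (Nat.dvd_prime_pow (by norm_num)).1 hx
  obtain ⟨j, _, hj⟩ := (Nat.dvd_prime_pow (by norm_num)).1 hy
  apply descent (i + j) i j rfl a b
  rw [e2, ← hxy, hi, hj]
  push_cast
  ring

end Pool.Agent.E8helper10.CB
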